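import Mathlib

set_option autoImplicit false

namespace Pool.Agent.H.MP_95a65f_co

open Finset

lemma half {r : ℕ} (f : Fin r → Fin r → ℕ) (hs : ∀ i j, f i j = f j i) (h0 : ∀ i, f i i = 0) :
    ∑ i, ∑ j, f i j = 2 * ∑ i, ∑ j with i < j, f i j := by
  have h1 : ∀ i j, f i j = (if i < j then f i j else 0) + (if j < i then f j i else 0) := by
    intro i j
    rcases lt_trichotomy i j with h | h | h
    · simp [h, h.not_gt]
    · simp [h, h0]
    · simp [h, h.not_gt, hs i j]
  calc ∑ i, ∑ j, f i j
      = ∑ i, ∑ j, ((if i < j then f i j else 0) + (if j < i then f j i else 0)) :=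
        sum_congr rfl fun i _ => sum_congr rfl fun j _ => h1 i j
    _ = ∑ i, ∑ j, (if i < j then f i j else 0) + ∑ i, ∑ j, (if j < i then f j i else 0) := by
        simp only [sum_add_distrib]
    _ = _ := by
        rw [sum_comm (f := fun i j => if j < i then f j i else 0), two_mul]
        simp only [sum_filter]

lemma cut {r : ℕ} (P : Fin r → Prop) [DecidablePred P] :
    ∑ i, ∑ j, (if (P i ↔ P j) then 0 else 1) =
      2 * ((univ.filter P).card * (r - (univ.filter P).card)) := by
  have h1 : (univ.filter (fun i => ¬ P i)).card = r - (univ.filter P).card := by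
    have := card_filter_add_card_filter_not (s := univ) P
    simp only [card_univ, Fintype.card_fin] at this
    omega
  have h2 : ∀ i, ∑ j, (if (P i ↔ P j) then 0 else 1) =
      if P i then (univ.filter (fun i => ¬ P i)).card else (univ.filter P).card := by
    intro i
    by_cases h : P i
    · simp only [h, true_iff, if_true, card_filter]
      exact sum_congr rfl fun j _ => by by_cases P j <;> simp [*]
    · simp only [h, false_iff, if_false, card_filter]
      exact sum_congr rfl fun j _ => by by_cases P j <;> simp [*]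
  simp only [h2, sum_ite, sum_const, smul_eq_mul, h1]
  ring

lemma quarter (r s : ℕ) : s * (r - s) ≤ r ^ 2 / 4 := by
  rcases le_total s r with h | h
  · obtain ⟨t, rfl⟩ := Nat.exists_eq_add_of_le h
    rw [Nat.add_sub_cancel_left, Nat.le_div_iff_mul_le (by norm_num)]
    nlinarith [sq_nonneg ((s : ℤ) - t)]
  · simp [Nat.sub_eq_zero_of_le h]

variable {V : Type} [DecidableEq V] {G : SimpleGraph V}

def P (G : SimpleGraph V) (r : ℕ) (A : Finset V) (W : ℕ) : Prop :=
  ∀ y : Fin r → V, (∀ i, y i ∈ A) → ∑ i, ∑ j, G.dist (y i) (y j) ≤ 2 * (W * (r ^ 2 / 4))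

lemma step (hG : G.Connected) {r : ℕ} {A : Finset V} {W l : ℕ} (h : P G r A W) {a w : V}
    (ha : a ∈ A) (hl : G.dist a w ≤ l) : P G r (insert w A) (W + l) := by
  intro y hy
  have h1 := h (fun i => if y i = w then a else y i) (by
    intro i
    split_ifs with hi
    · exact ha
    · exact (mem_insert.1 (hy i)).resolve_left hi)
  have h2 : ∀ i j, G.dist (y i) (y j) ≤
      G.dist (if y i = w then a else y i) (if y j = w then a else y j) +
        l * (if (y i = w ↔ y j = w) then 0 else 1) := by
    intro i j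
    by_cases hi : y i = w <;> by_cases hj : y j = w
    · simp [hi, hj]
    · have := hG.dist_triangle (u := w) (v := a) (w := y j)
      rw [SimpleGraph.dist_comm (u := w) (v := a)] at this
      simp [hi, hj]; omega
    · have := hG.dist_triangle (u := y i) (v := a) (w := w)
      simp [hi, hj]; omega
    · simp [hi, hj]
  have h3 := cut (fun i => y i = w)
  have h4 := quarter r (univ.filter (fun i => y i = w)).card
  calc ∑ i, ∑ j, G.dist (y i) (y j) ≤ _ := sum_le_sum fun i _ => sum_le_sum fun j _ => h2 i j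
    _ = _ + l * ∑ i, ∑ j, (if (y i = w ↔ y j = w) then 0 else 1) := by
        simp only [sum_add_distrib, mul_sum]; rfl
    _ ≤ 2 * (W * (r ^ 2 / 4)) + l * (2 * (r ^ 2 / 4)) := by
        rw [h3]
        exact add_le_add h1 (Nat.mul_le_mul_left _ (by omega))
    _ = _ := by ring

lemma adj_le {a b : V} (h : G.Adj a b) : G.dist a b ≤ 1 :=
  (SimpleGraph.dist_eq_one_iff_adj.2 h).le

lemma tree (hG : G.Connected) (r : ℕ) (D : Finset V) (hD : ∀ v, ∃ u ∈ D, G.Adj v u) :
    2 ≤ D.card ∧ ∃ W, W + 3 ≤ 2 * D.card ∧ P G r D W := by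
  classical
  obtain ⟨v0⟩ := hG.nonempty
  obtain ⟨u, hu, -⟩ := hD v0
  obtain ⟨v, hv, huv⟩ := hD u
  have h1 : P G r {u} 0 := by
    intro y hy
    simp only [mem_singleton] at hy
    simp [hy]
  have h2 := step hG h1 (mem_singleton_self u) (adj_le huv)
  obtain ⟨A, hA, hmax⟩ := exists_max_image (D.powerset.filter
    (fun A => 2 ≤ A.card ∧ ∃ W, W + 3 ≤ 2 * A.card ∧ P G r A W)) card
    ⟨insert v {u}, by
      have : (insert v {u} : Finset V).card = 2 := card_pair huv.ne'
      refine mem_filter.2 ⟨mem_powerset.2 ?_, this.ge, 0 + 1, by omega, h2⟩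
      intro x hx
      rcases mem_insert.1 hx with rfl | hx
      · exact hv
      · rw [mem_singleton.1 hx]; exact hu⟩
  obtain ⟨hAD, hA2, W, hW, hP⟩ := mem_filter.1 hA
  rw [mem_powerset] at hAD
  have no1 : ∀ w ∈ D, w ∉ A → ∀ a ∈ A, ¬ G.Adj a w := by
    intro w hw hwA a ha hadj
    have := hmax (insert w A) (mem_filter.2 ⟨mem_powerset.2 (insert_subset hw hAD), by
      rw [card_insert_of_notMem hwA]
      exact ⟨by omega, W + 1, by omega, step hG hP ha (adj_le hadj)⟩⟩)
    rw [card_insert_of_notMem hwA] at this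
    omega
  have all : ∀ x y, G.Adj x y → (∃ a ∈ A, G.Adj a x) → ∃ a ∈ A, G.Adj a y := by
    rintro x y hxy ⟨a, ha, hax⟩
    by_contra hn
    obtain ⟨w, hw, hyw⟩ := hD y
    have hwA : w ∉ A := fun h => hn ⟨w, h, hyw.symm⟩
    obtain ⟨w', hw', hww⟩ := hD w
    have hwA' : w' ∉ insert w A := by
      intro h
      rcases mem_insert.1 h with h | h
      · exact hww.ne' h
      · exact no1 w hw hwA w' h hww.symm
    have hd : G.dist a w ≤ 3 := by
      have t1 := hG.dist_triangle (u := a) (v := x) (w := w)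
      have t2 := hG.dist_triangle (u := x) (v := y) (w := w)
      have := adj_le hax
      have := adj_le hxy
      have := adj_le hyw
      omega
    have := hmax (insert w' (insert w A)) (mem_filter.2 ⟨mem_powerset.2
      (insert_subset hw' (insert_subset hw hAD)), by
      rw [card_insert_of_notMem hwA', card_insert_of_notMem hwA]
      exact ⟨by omega, W + 3 + 1, by omega,
        step hG (step hG hP ha hd) (mem_insert_self _ _) (adj_le hww)⟩⟩)
    rw [card_insert_of_notMem hwA', card_insert_of_notMem hwA] at this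
    omega
  have all2 : ∀ x y, G.Reachable x y → (∃ a ∈ A, G.Adj a x) → ∃ a ∈ A, G.Adj a y := by
    rintro x y ⟨p⟩
    induction p with
    | nil => exact id
    | cons h _ ih => exact fun hx => ih (all _ _ h hx)
  obtain ⟨a0, ha0⟩ := card_pos.1 (show 0 < A.card by omega)
  obtain ⟨x0, -, hx0⟩ := hD a0
  have : A = D := by
    refine Subset.antisymm hAD fun w hw => ?_
    by_contra hn
    obtain ⟨a, ha, h⟩ := all2 x0 w (hG x0 w) ⟨a0, ha0, hx0⟩
    exact no1 w hw hn a ha h
  rw [← this]
  exact ⟨hA2, W, hW, hP⟩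

lemma offdiag (r : ℕ) : ∑ i : Fin r, ∑ j : Fin r, (if i = j then 0 else 2) = 2 * (r * (r - 1)) := by
  have : ∀ i : Fin r, ∑ j : Fin r, (if i = j then 0 else 2) = (r - 1) * 2 := by
    intro i
    rw [sum_ite, sum_const_zero, zero_add, sum_const, smul_eq_mul, filter_ne, card_erase_of_mem
      (mem_univ _)]
    simp
  simp only [this, sum_const, card_univ, Fintype.card_fin, smul_eq_mul]
  ring

lemma lower (hG : G.Connected) (r : ℕ) (hr : 3 ≤ r) (D : Finset V) (hD : ∀ v, ∃ u ∈ D, G.Adj v u)
    (x : Fin r → V) :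
    2 * ∑ i, ∑ j with i < j, G.dist (x i) (x j) ≤ D.card * (r * (r - 1) + r ^ 2 / 4) := by
  obtain ⟨h2, W, hW, hP⟩ := tree hG r D hD
  choose f hf1 hf2 using hD
  have h1 := hP (fun i => f (x i)) (fun i => hf1 _)
  have h3 : ∀ i j, G.dist (x i) (x j) ≤ G.dist (f (x i)) (f (x j)) + (if i = j then 0 else 2) := by
    intro i j
    split_ifs with h
    · simp [h]
    · have t1 := hG.dist_triangle (u := x i) (v := f (x i)) (w := x j)
      have t2 := hG.dist_triangle (u := f (x i)) (v := f (x j)) (w := x j)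
      have := adj_le (hf2 (x i))
      have := adj_le (hf2 (x j)).symm
      omega
  have h4 : 3 * (r ^ 2 / 4) ≤ r * (r - 1) := by
    rcases Nat.eq_or_lt_of_le hr with rfl | h
    · norm_num
    · obtain ⟨t, rfl⟩ := Nat.exists_eq_add_of_le (show 4 ≤ r from h)
      have := Nat.div_mul_le_self ((4 + t) ^ 2) 4
      rw [show 4 + t - 1 = 3 + t by omega]
      nlinarith
  rw [← half _ (fun i j => SimpleGraph.dist_comm) (fun i => SimpleGraph.dist_self)]
  have h5 : ∑ i, ∑ j, G.dist (x i) (x j) ≤ 2 * (W * (r ^ 2 / 4)) + 2 * (r * (r - 1)) := by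
    calc _ ≤ _ := sum_le_sum fun i _ => sum_le_sum fun j _ => h3 i j
      _ = _ + ∑ i : Fin r, ∑ j : Fin r, (if i = j then 0 else 2) := by
        simp only [sum_add_distrib]; rfl
      _ ≤ _ := by rw [offdiag]; exact Nat.add_le_add_right h1 _
  obtain ⟨g, hg⟩ := Nat.exists_eq_add_of_le h2
  rw [hg] at hW ⊢
  generalize r ^ 2 / 4 = q at *
  generalize r * (r - 1) = s at *
  have h6 : W * q ≤ (2 * g + 1) * q := Nat.mul_le_mul_right _ (by omega)
  have h7 : g * (3 * q) ≤ g * s := Nat.mul_le_mul_left _ h4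
  nlinarith

def rel (r : ℕ) : (Fin r ⊕ Bool) → (Fin r ⊕ Bool) → Prop
  | .inl i, .inr b => b = decide (i.1 < r / 2)
  | .inr a, .inr b => a = true ∧ b = false
  | _, _ => False

def dstar (r : ℕ) : SimpleGraph (Fin r ⊕ Bool) := SimpleGraph.fromRel (rel r)

lemma star_c (r : ℕ) : (dstar r).Adj (.inr true) (.inr false) := by
  simp [dstar, rel, SimpleGraph.fromRel_adj]

lemma star_l (r : ℕ) (i : Fin r) : (dstar r).Adj (.inl i) (.inr (decide (i.1 < r / 2))) := by
  simp [dstar, rel, SimpleGraph.fromRel_adj]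

lemma star_conn (r : ℕ) : (dstar r).Connected := by
  have h1 : ∀ b, (dstar r).Reachable (.inr b) (.inr true) := by
    intro b
    cases b
    · exact (star_c r).symm.reachable
    · rfl
  have h : ∀ v, (dstar r).Reachable v (.inr true) := by
    rintro (i | b)
    · exact (star_l r i).reachable.trans (h1 _)
    · exact h1 b
  exact ⟨fun a b => (h a).trans (h b).symm⟩

lemma star_dom (r : ℕ) (v : Fin r ⊕ Bool) :
    ∃ u ∈ ({.inr true, .inr false} : Finset (Fin r ⊕ Bool)), (dstar r).Adj v u := by
  rcases v with i | b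
  · exact ⟨_, by cases decide (i.1 < r / 2) <;> simp, star_l r i⟩
  · cases b
    · exact ⟨_, by simp, (star_c r).symm⟩
    · exact ⟨_, by simp, star_c r⟩

def pot (r : ℕ) : (Fin r ⊕ Bool) → ℤ
  | .inl i => if i.1 < r / 2 then 0 else 3
  | .inr b => if b then 1 else 2

lemma pot_le (r : ℕ) (a b : Fin r ⊕ Bool) : |pot r a - pot r b| ≤ (dstar r).dist a b := by
  obtain ⟨p, hp⟩ := (star_conn r).exists_walk_length_eq_dist a b
  rw [← hp]
  clear hp
  induction p with
  | nil => simp
  | @cons u v w h p ih =>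
    have : |pot r u - pot r v| ≤ 1 := by
      rw [dstar, SimpleGraph.fromRel_adj] at h
      rcases u with i | a <;> rcases v with j | b <;> simp only [rel, or_false, false_or] at h
      · exact h.2.elim
      · rw [h.2]; by_cases i.1 < r / 2 <;> simp [pot, *]
      · rw [h.2]; by_cases j.1 < r / 2 <;> simp [pot, *]
      · cases a <;> cases b <;> simp [pot]
    have h2 := abs_sub_le (pot r u) (pot r v) (pot r w)
    simp only [SimpleGraph.Walk.length_cons]
    push_cast
    linarith

lemma upper (r : ℕ) :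
    r * (r - 1) + r ^ 2 / 4 ≤ ∑ i : Fin r, ∑ j with i < j, (dstar r).dist (.inl i) (.inl j) := by
  have h1 := half (fun i j : Fin r => (dstar r).dist (.inl i) (.inl j))
    (fun i j => SimpleGraph.dist_comm) (fun i => SimpleGraph.dist_self)
  have h2 : ∀ i j : Fin r, (if i = j then 0 else 2) +
      (if (i.1 < r / 2 ↔ j.1 < r / 2) then 0 else 1) ≤ (dstar r).dist (.inl i) (.inl j) := by
    intro i j
    by_cases h : i.1 < r / 2 ↔ j.1 < r / 2
    · rw [if_pos h]
      split_ifs with hij
      · simp
      · have a1 : (dstar r).dist (.inl i) (.inl j) ≠ 0 := by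
          rw [Ne, (star_conn r).dist_eq_zero_iff]; simpa using hij
        have a2 : (dstar r).dist (.inl i) (.inl j) ≠ 1 := by
          rw [Ne, SimpleGraph.dist_eq_one_iff_adj]; simp [dstar, rel, SimpleGraph.fromRel_adj]
        omega
    · have := pot_le r (.inl i) (.inl j)
      rw [if_neg h]
      by_cases hi : i.1 < r / 2 <;> by_cases hj : j.1 < r / 2
      · exact absurd (iff_of_true hi hj) h
      · simp [pot, hi, hj] at this
        split_ifs <;> omega
      · simp [pot, hi, hj] at this
        split_ifs <;> omega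
      · exact absurd (iff_of_false hi hj) h
  have h3 := sum_le_sum fun (i : Fin r) (_ : i ∈ univ) =>
    sum_le_sum fun (j : Fin r) (_ : j ∈ univ) => h2 i j
  simp only [sum_add_distrib] at h3
  rw [offdiag, cut (fun i : Fin r => i.1 < r / 2), h1, Fin.card_filter_val_lt] at h3
  have h4 : r ^ 2 / 4 ≤ min r (r / 2) * (r - min r (r / 2)) := by
    rw [min_eq_right (Nat.div_le_self _ _)]
    apply Nat.le_of_lt_succ
    rw [Nat.div_lt_iff_lt_mul (by norm_num)]
    rcases Nat.even_or_odd' r with ⟨k, rfl | rfl⟩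
    · rw [show 2 * k / 2 = k by omega, show 2 * k - k = k by omega]; nlinarith
    · rw [show (2 * k + 1) / 2 = k by omega, show 2 * k + 1 - k = k + 1 by omega]; nlinarith
  omega

end Pool.Agent.H.MP_95a65f_co
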